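import Mathlib

open Filter Topology Set Metric

namespace Pool.Agent.Results.MP_5d6127_an.CoefficientBoundFails

/-- The unit bidisc; the norm of `ℂ × ℂ` is the maximum norm. -/
def bidisc : Set (ℂ × ℂ) := ball 0 1

/-- A normal Loewner chain on the bidisc, as a family `F t` (`t ≥ 0`) of maps: each `F t` is
holomorphic and univalent on the bidisc with `F t 0 = 0` and derivative `e^t` times the identity
at `0`, the images increase with `t`, and `{e^{-t} F t}` is a normal family: every sequence of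
its members has a subsequence which converges locally uniformly on the bidisc. -/
structure IsNormalLoewnerChain (F : ℝ → ℂ × ℂ → ℂ × ℂ) : Prop where
  holomorphic : ∀ t, 0 ≤ t → DifferentiableOn ℂ (F t) bidisc
  univalent : ∀ t, 0 ≤ t → InjOn (F t) bidisc
  map_zero : ∀ t, 0 ≤ t → F t 0 = 0
  hasFDerivAt : ∀ t, 0 ≤ t → HasFDerivAt (F t)
    ((Real.exp t : ℂ) • ContinuousLinearMap.id ℂ (ℂ × ℂ)) 0
  image_subset : ∀ s t, 0 ≤ s → s ≤ t → F s '' bidisc ⊆ F t '' bidisc
  normal : ∀ τ : ℕ → ℝ, (∀ k, 0 ≤ τ k) → ∃ φ : ℕ → ℕ, StrictMono φ ∧ ∃ g : ℂ × ℂ → ℂ × ℂ,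
    TendstoLocallyUniformlyOn (fun k z => (Real.exp (-τ (φ k)) : ℂ) • F (τ (φ k)) z) g atTop bidisc

/-- The class `S⁰(U²)` of the maps with parametric representation: `f` agrees on the bidisc with
the initial element of a normal Loewner chain. -/
def S0 : Set (ℂ × ℂ → ℂ × ℂ) :=
  {f | ∃ F, IsNormalLoewnerChain F ∧ EqOn f (F 0) bidisc}

/-- The class `S⁰(U², M)`. -/
def S0Bdd (M : ℝ) : Set (ℂ × ℂ → ℂ × ℂ) := {f | f ∈ S0 ∧ ∀ z ∈ bidisc, ‖f z‖ ≤ M}

/-- The coefficient `a¹₀₂ = ½ ∂²f₁/∂z₂² (0)`. -/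
noncomputable def a102 (f : ℂ × ℂ → ℂ × ℂ) : ℂ :=
  (1 / 2) * iteratedDeriv 2 (fun ζ : ℂ => (f (0, ζ)).1) 0

/-- The map `(z₁, z₂) ↦ (z₁ + a z₂², z₂)`. -/
def shear (a : ℝ) (z : ℂ × ℂ) : ℂ × ℂ := (z.1 + a * z.2 ^ 2, z.2)

lemma mem_bidisc {z : ℂ × ℂ} : z ∈ bidisc ↔ ‖z.1‖ < 1 ∧ ‖z.2‖ < 1 := by
  rw [bidisc, mem_ball_zero_iff, Prod.norm_def, max_lt_iff]

lemma shear_differentiable (a : ℝ) : Differentiable ℂ (shear a) := by
  unfold shear
  fun_prop

lemma shear_injective (a : ℝ) : Function.Injective (shear a) := by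
  intro z w h
  simp only [shear, Prod.mk.injEq] at h
  obtain ⟨h1, h2⟩ := h
  rw [h2] at h1
  exact Prod.ext (by simpa using h1) h2

lemma shear_hasFDerivAt (a : ℝ) :
    HasFDerivAt (shear a) (ContinuousLinearMap.id ℂ (ℂ × ℂ)) 0 := by
  have h1 : HasFDerivAt (fun z : ℂ × ℂ => z.1) (ContinuousLinearMap.fst ℂ ℂ ℂ) 0 :=
    (ContinuousLinearMap.fst ℂ ℂ ℂ).hasFDerivAt
  have h2 : HasFDerivAt (fun z : ℂ × ℂ => z.2) (ContinuousLinearMap.snd ℂ ℂ ℂ) 0 :=
    (ContinuousLinearMap.snd ℂ ℂ ℂ).hasFDerivAt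
  have h3 : HasFDerivAt (fun z : ℂ × ℂ => z.2 ^ 2) (0 : ℂ × ℂ →L[ℂ] ℂ) 0 := by
    refine (h2.pow 2).congr_fderiv ?_
    ext <;> simp
  have h4 := (h1.add (h3.const_mul (a : ℂ))).prodMk h2
  refine h4.congr_fderiv ?_
  ext <;> simp

/-- The chain `e^t (z₁ + a z₂², z₂)`. -/
noncomputable def chain (a : ℝ) (t : ℝ) (z : ℂ × ℂ) : ℂ × ℂ := (Real.exp t : ℂ) • shear a z

lemma isNormalLoewnerChain_chain {a : ℝ} (ha0 : 0 ≤ a) (ha : a ≤ 1) :
    IsNormalLoewnerChain (chain a) where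
  holomorphic t _ := by
    have h : chain a t = (Real.exp t : ℂ) • shear a := rfl
    rw [h]
    exact ((shear_differentiable a).const_smul (Real.exp t : ℂ)).differentiableOn
  univalent t _ := by
    intro z _ w _ h
    refine shear_injective a ?_
    have he : (Real.exp t : ℂ) ≠ 0 := by
      exact_mod_cast (Real.exp_pos t).ne'
    exact smul_right_injective _ he h
  map_zero t _ := by
    simp [chain, shear]
  hasFDerivAt t _ := by
    have h : chain a t = (Real.exp t : ℂ) • shear a := rfl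
    rw [h]
    exact (shear_hasFDerivAt a).const_smul (Real.exp t : ℂ)
  image_subset s t _ hst := by
    rintro _ ⟨z, hz, rfl⟩
    rw [mem_bidisc] at hz
    set c : ℝ := Real.exp (s - t) with hc
    have hc0 : 0 < c := Real.exp_pos _
    have hc1 : c ≤ 1 := by
      rw [hc, Real.exp_le_one_iff]
      linarith
    refine ⟨(c * z.1 + a * (c * (1 - c)) * z.2 ^ 2, c * z.2), ?_, ?_⟩
    · rw [mem_bidisc]
      constructor
      · have h1 : ‖(c : ℂ) * z.1 + a * (c * (1 - c)) * z.2 ^ 2‖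
            ≤ c * ‖z.1‖ + a * (c * (1 - c)) * ‖z.2‖ ^ 2 := by
          refine (norm_add_le _ _).trans ?_
          have e1 : ‖(c : ℂ) * z.1‖ = c * ‖z.1‖ := by
            rw [norm_mul, Complex.norm_real, Real.norm_of_nonneg hc0.le]
          have e2 : ‖(a : ℂ) * (c * (1 - c)) * z.2 ^ 2‖ = a * (c * (1 - c)) * ‖z.2‖ ^ 2 := by
            rw [norm_mul, norm_pow]
            have : (a : ℂ) * (c * (1 - c)) = ((a * (c * (1 - c)) : ℝ) : ℂ) := by push_cast; ring
            rw [this, Complex.norm_real, Real.norm_of_nonneg]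
            exact mul_nonneg ha0 (mul_nonneg hc0.le (by linarith))
          rw [e1, e2]
        refine lt_of_le_of_lt h1 ?_
        have h2 : c * ‖z.1‖ < c := by nlinarith [hz.1]
        have h3 : ‖z.2‖ ^ 2 ≤ 1 := by
          have := norm_nonneg z.2
          nlinarith [hz.2]
        have h4 : a * (c * (1 - c)) * ‖z.2‖ ^ 2 ≤ a * (c * (1 - c)) * 1 :=
          mul_le_mul_of_nonneg_left h3 (mul_nonneg ha0 (mul_nonneg hc0.le (by linarith)))
        have h5 : a * (c * (1 - c)) ≤ 1 * (c * (1 - c)) :=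
          mul_le_mul_of_nonneg_right ha (mul_nonneg hc0.le (by linarith))
        nlinarith
      · have e1 : ‖(c : ℂ) * z.2‖ = c * ‖z.2‖ := by
          rw [norm_mul, Complex.norm_real, Real.norm_of_nonneg hc0.le]
        rw [e1]
        nlinarith [hz.2, norm_nonneg z.2]
    · have hexp : (Real.exp s : ℂ) = (Real.exp t : ℂ) * c := by
        rw [hc, ← Complex.ofReal_mul, ← Real.exp_add]
        congr 2
        ring
      simp only [chain, shear, Prod.smul_mk, smul_eq_mul, hexp, Prod.mk.injEq]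
      constructor <;> ring
  normal τ _ := by
    refine ⟨id, strictMono_id, shear a, ?_⟩
    have : (fun (k : ℕ) (z : ℂ × ℂ) => (Real.exp (-τ (id k)) : ℂ) • chain a (τ (id k)) z)
        = fun _ => shear a := by
      funext k z
      rw [chain, smul_smul, ← Complex.ofReal_mul, ← Real.exp_add]
      simp
    rw [this]
    intro u hu x hx
    exact ⟨bidisc, self_mem_nhdsWithin, Eventually.of_forall fun _ _ _ => refl_mem_uniformity hu⟩

lemma a102_shear (a : ℝ) : a102 (shear a) = a := by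
  have h : (fun ζ : ℂ => (shear a (0, ζ)).1) = fun ζ => (a : ℂ) * ζ ^ 2 := by
    funext ζ
    simp [shear]
  rw [a102, h, iteratedDeriv_succ, iteratedDeriv_one]
  have h1 : deriv (fun ζ : ℂ => (a : ℂ) * ζ ^ 2) = fun ζ => (a : ℂ) * (2 * ζ) := by
    funext ζ
    have := (hasDerivAt_pow 2 ζ).const_mul (a : ℂ)
    rw [this.deriv]
    norm_num
  rw [h1]
  have h2 : deriv (fun ζ : ℂ => (a : ℂ) * (2 * ζ)) 0 = (a : ℂ) * 2 := by
    have := ((hasDerivAt_id (0 : ℂ)).const_mul (2 : ℂ)).const_mul (a : ℂ)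
    have h3 := this.deriv
    simp only [id, mul_one] at h3
    exact h3
  rw [h2]
  ring

/-- **The conjectured coefficient bound fails for every `M > 1`**: some `f ∈ S⁰(U², M)` has
`|a¹₀₂| = min 1 (M - 1) > 1 - 1 / M`. -/
theorem result (M : ℝ) (hM : 1 < M) :
    ∃ f ∈ S0Bdd M, 1 - 1 / M < ‖a102 f‖ ∧ ‖a102 f‖ = min 1 (M - 1) := by
  set a : ℝ := min 1 (M - 1) with ha
  have ha0 : 0 < a := lt_min one_pos (by linarith)
  have ha1 : a ≤ 1 := min_le_left _ _
  have haM : a ≤ M - 1 := min_le_right _ _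
  have hnorm : ‖a102 (shear a)‖ = a := by
    rw [a102_shear, Complex.norm_real, Real.norm_of_nonneg ha0.le]
  refine ⟨shear a, ⟨⟨chain a, isNormalLoewnerChain_chain ha0.le ha1, ?_⟩, ?_⟩, ?_, hnorm⟩
  · intro z _
    simp [chain]
  · intro z hz
    rw [mem_bidisc] at hz
    rw [shear, Prod.norm_def]
    refine max_le ?_ (by linarith [hz.2])
    refine (norm_add_le _ _).trans ?_
    rw [norm_mul, norm_pow, Complex.norm_real, Real.norm_of_nonneg ha0.le]
    have h3 : ‖z.2‖ ^ 2 ≤ 1 := by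
      have := norm_nonneg z.2
      nlinarith [hz.2]
    have h4 : a * ‖z.2‖ ^ 2 ≤ a * 1 := mul_le_mul_of_nonneg_left h3 ha0.le
    linarith [hz.1]
  · rw [hnorm]
    have hM0 : 0 < M := by linarith
    rw [ha, lt_min_iff]
    constructor
    · have : 0 < 1 / M := by positivity
      linarith
    · rw [one_sub_div hM0.ne', div_lt_iff₀ hM0]
      nlinarith

end Pool.Agent.Results.MP_5d6127_an.CoefficientBoundFails
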